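import Mathlib
import Pool.Agent.Helper669.KDefs
import Pool.Agent.Helper669.Dom

/-!
# Forcing with the sets of positive measure
-/

namespace Pool.Agent.W5h77.Rnd

open Cardinal MeasureTheory Set Filter Pool.Agent.Helper669.Forcing Pool.Agent.Helper669.K
open scoped ENNReal

/-- The conditions: the measurable sets of nonzero measure. -/
structure PosSet {Om : Type} [MeasurableSpace Om] (m : Measure Om) where
  carrier : Set Om
  meas : MeasurableSet carrier
  pos : m carrier ≠ 0

section

variable {Om : Type} [MeasurableSpace Om] {m : Measure Om}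

/-- `s ≤ t` iff `s` is contained in `t` up to a null set. Identifying `s` and `t` when `s ≤ t`
and `t ≤ s` gives the nonzero elements of the measure algebra of `m`. -/
instance : Preorder (PosSet m) where
  le s t := m (s.carrier \ t.carrier) = 0
  le_refl s := by simp
  le_trans s t u hst htu := by
    refine measure_mono_null (t := (s.carrier \ t.carrier) ∪ (t.carrier \ u.carrier)) ?_
      (measure_union_null hst htu)
    intro x hx
    by_cases h : x ∈ t.carrier
    · exact Or.inr ⟨h, hx.2⟩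
    · exact Or.inl ⟨hx.1, h⟩

theorem le_iff {s t : PosSet m} : s ≤ t ↔ m (s.carrier \ t.carrier) = 0 := Iff.rfl

theorem null_of_le {s t : PosSet m} (h : s ≤ t) {V : Set Om} (hV : m (t.carrier \ V) = 0) :
    m (s.carrier \ V) = 0 := by
  refine measure_mono_null (t := (s.carrier \ t.carrier) ∪ (t.carrier \ V)) ?_
      (measure_union_null h hV)
  intro x hx
  by_cases h : x ∈ t.carrier
  · exact Or.inr ⟨h, hx.2⟩
  · exact Or.inl ⟨hx.1, h⟩

/-- the part of `s` in `V` -/
def cut (s : PosSet m) (V : Set Om) (hV : MeasurableSet V) (h : m (s.carrier ∩ V) ≠ 0) :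
    PosSet m := ⟨s.carrier ∩ V, s.meas.inter hV, h⟩

theorem cut_le (s : PosSet m) (V : Set Om) (hV : MeasurableSet V) (h : m (s.carrier ∩ V) ≠ 0) :
    cut s V hV h ≤ s := by
  rw [le_iff]
  refine measure_mono_null (t := ∅) ?_ measure_empty
  rintro x ⟨hx, hx'⟩
  exact hx' hx.1

theorem cut_null (s : PosSet m) (V : Set Om) (hV : MeasurableSet V) (h : m (s.carrier ∩ V) ≠ 0) :
    m ((cut s V hV h).carrier \ V) = 0 := by
  refine measure_mono_null (t := ∅) ?_ measure_empty
  rintro x ⟨hx, hx'⟩
  exact hx' hx.2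

/-- `V` is a measurable set such that the conditions in `φ` are exactly the ones which are
contained in `V` up to a null set. -/
def HasVal (φ : Set (PosSet m)) (V : Set Om) : Prop :=
  MeasurableSet V ∧ ∀ p : PosSet m, p ∈ φ ↔ m (p.carrier \ V) = 0

theorem HasVal.fnot {φ : Set (PosSet m)} {V : Set Om} (h : HasVal φ V) :
    HasVal (fnot φ) Vᶜ := by
  refine ⟨h.1.compl, fun p => ?_⟩
  constructor
  · intro hp
    by_contra hne
    have hne' : m (p.carrier ∩ V) ≠ 0 := by
      rwa [diff_compl] at hne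
    exact hp _ (cut_le p V h.1 hne') ((h.2 _).2 (cut_null p V h.1 hne'))
  · intro hp q hq hqφ
    apply q.pos
    have h1 := (h.2 q).1 hqφ
    refine measure_mono_null (t := (q.carrier \ V) ∪ ((q.carrier \ p.carrier) ∪
      (p.carrier \ Vᶜ))) ?_ (measure_union_null h1 (measure_union_null hq hp))
    intro x hx
    by_cases h2 : x ∈ V
    · by_cases h3 : x ∈ p.carrier
      · exact Or.inr (Or.inr ⟨h3, fun h4 => h4 h2⟩)
      · exact Or.inr (Or.inl ⟨hx, h3⟩)
    · exact Or.inl ⟨hx, h2⟩

theorem HasVal.fand {φ ψ : Set (PosSet m)} {V W : Set Om} (h : HasVal φ V) (h' : HasVal ψ W) :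
    HasVal (fand φ ψ) (V ∩ W) := by
  refine ⟨h.1.inter h'.1, fun p => ?_⟩
  rw [diff_inter, measure_union_null_iff, ← h.2 p, ← h'.2 p]
  rfl

theorem HasVal.fall {ι : Sort*} [Countable ι] {φ : ι → Set (PosSet m)} {V : ι → Set Om}
    (h : ∀ i, HasVal (φ i) (V i)) : HasVal (fall φ) (⋂ i, V i) := by
  refine ⟨MeasurableSet.iInter fun i => (h i).1, fun p => ?_⟩
  rw [diff_iInter, measure_iUnion_null_iff]
  exact forall_congr' fun i => (h i).2 p

theorem HasVal.congr {φ : Set (PosSet m)} {V W : Set Om} (h : HasVal φ V) (e : V = W) :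
    HasVal φ W := e ▸ h

theorem HasVal.fimp {φ ψ : Set (PosSet m)} {V W : Set Om} (h : HasVal φ V) (h' : HasVal ψ W) :
    HasVal (fimp φ ψ) {x | x ∈ V → x ∈ W} := by
  refine (h.fand h'.fnot).fnot.congr ?_
  ext x
  simp

theorem HasVal.fex {ι : Sort*} [Countable ι] {φ : ι → Set (PosSet m)} {V : ι → Set Om}
    (h : ∀ i, HasVal (φ i) (V i)) : HasVal (fex φ) (⋃ i, V i) := by
  refine (HasVal.fall fun i => (h i).fnot).fnot.congr ?_
  ext x
  simp

theorem HasVal.fground (h : Prop) : HasVal (fground h : Set (PosSet m)) {_x | h} := by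
  by_cases h' : h
  · refine ⟨by simp [h'], fun p => ?_⟩
    simp [h', Pool.Agent.Helper669.Forcing.fground]
  · refine ⟨by simp [h'], fun p => ?_⟩
    simp only [Pool.Agent.Helper669.Forcing.fground, h', setOf_false, mem_empty_iff_false,
      diff_empty, false_iff]
    exact p.pos

theorem HasVal.down {φ : Set (PosSet m)} {V : Set Om} (h : HasVal φ V) {p q : PosSet m}
    (hp : p ∈ φ) (hq : q ≤ p) : q ∈ φ := (h.2 q).2 (null_of_le hq ((h.2 p).1 hp))

/-- The essential union of a family of measurable sets. -/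
theorem exists_val [IsFiniteMeasure m] (N : Set (PosSet m)) : ∃ V, HasVal (meets N) V := by
  classical
  let S : Set ℝ≥0∞ := {x | ∃ C : Set (PosSet m), C ⊆ N ∧ C.Countable ∧
    x = m (⋃ s ∈ C, s.carrier)}
  have hSne : S.Nonempty := ⟨_, ∅, empty_subset _, countable_empty, rfl⟩
  obtain ⟨u, -, hu2, hu3⟩ := exists_seq_tendsto_sSup hSne (OrderTop.bddAbove S)
  choose C hC1 hC2 hC3 using hu3
  let D : Set (PosSet m) := ⋃ n, C n
  have hD1 : D ⊆ N := iUnion_subset hC1
  have hD2 : D.Countable := countable_iUnion hC2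
  let V : Set Om := ⋃ s ∈ D, s.carrier
  have hVm : MeasurableSet V := MeasurableSet.biUnion hD2 fun s _ => s.meas
  have hV1 : sSup S ≤ m V := by
    refine le_of_tendsto' hu2 fun n => ?_
    rw [hC3 n]
    exact measure_mono (biUnion_subset_biUnion_left (subset_iUnion C n))
  have hkey : ∀ s ∈ N, m (s.carrier \ V) = 0 := by
    intro s hs
    have h1 : m (V ∪ s.carrier) ≤ sSup S := by
      refine le_sSup ⟨insert s D, insert_subset hs hD1, hD2.insert s, ?_⟩
      rw [biUnion_insert, union_comm]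
    have h2 : m (V ∪ s.carrier) = m V + m (s.carrier \ V) := by
      rw [← union_diff_self, measure_union disjoint_sdiff_right (s.meas.diff hVm)]
    rw [h2] at h1
    have h3 : m V + m (s.carrier \ V) ≤ m V + 0 := by
      rw [add_zero]
      exact h1.trans hV1
    have h4 := (ENNReal.add_le_add_iff_left (measure_ne_top m V)).1 h3
    exact le_antisymm h4 bot_le
  refine ⟨V, hVm, fun p => ?_⟩
  constructor
  · intro hp
    by_contra hne
    have hne' : m (p.carrier ∩ Vᶜ) ≠ 0 := hne
    obtain ⟨r, hr, s, hs, hrs⟩ := hp _ (cut_le p Vᶜ hVm.compl hne')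
    apply r.pos
    have h1 := null_of_le hrs (hkey s hs)
    have h2 := null_of_le hr (cut_null p Vᶜ hVm.compl hne')
    refine measure_mono_null (t := (r.carrier \ V) ∪ (r.carrier \ Vᶜ)) ?_
      (measure_union_null h1 h2)
    intro x hx
    by_cases h3 : x ∈ V
    · exact Or.inr ⟨hx, fun h4 => h4 h3⟩
    · exact Or.inl ⟨hx, h3⟩
  · intro hp q hq
    have h1 := null_of_le hq hp
    have h2 : ∃ s ∈ D, m (q.carrier ∩ s.carrier) ≠ 0 := by
      by_contra hcon
      push Not at hcon
      apply q.pos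
      refine measure_mono_null (t := (q.carrier \ V) ∪ (⋃ s ∈ D, q.carrier ∩ s.carrier)) ?_
        (measure_union_null h1 ((measure_biUnion_null_iff hD2).2 hcon))
      intro x hx
      by_cases h3 : x ∈ V
      · refine Or.inr ?_
        simp only [V, mem_iUnion] at h3
        obtain ⟨s, hs, hxs⟩ := h3
        simp only [mem_iUnion]
        exact ⟨s, hs, hx, hxs⟩
      · exact Or.inl ⟨hx, h3⟩
    obtain ⟨s, hs, hne⟩ := h2
    exact ⟨cut q s.carrier s.meas hne, cut_le _ _ _ _, s, hD1 hs, cut_null _ _ _ _⟩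

/-- the value of the statement that the generic filter meets `N` -/
noncomputable def val [IsFiniteMeasure m] (N : Set (PosSet m)) : Set Om :=
  (exists_val N).choose

theorem hasVal_meets [IsFiniteMeasure m] (N : Set (PosSet m)) : HasVal (meets N) (val N) :=
  (exists_val N).choose_spec

theorem measurableSet_val [IsFiniteMeasure m] (N : Set (PosSet m)) : MeasurableSet (val N) :=
  (hasVal_meets N).1

theorem hasVal_IsFun [IsFiniteMeasure m] {X Y : Type*} [Countable X] [Countable Y]
    (R : X → Y → Set (PosSet m)) :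
    HasVal (IsFun R) {w | (∀ x, ∃ y, w ∈ val (R x y)) ∧
      ∀ x y y', w ∈ val (R x y) → w ∈ val (R x y') → y = y'} := by
  refine (HasVal.fand (HasVal.fall fun x => HasVal.fex fun y => hasVal_meets (R x y))
    (HasVal.fall fun x => HasVal.fall fun y => HasVal.fall fun y' =>
      HasVal.fimp (HasVal.fand (hasVal_meets (R x y)) (hasVal_meets (R x y')))
        (HasVal.fground (y = y')))).congr ?_
  ext w
  simp only [mem_inter_iff, mem_iInter, mem_iUnion, mem_setOf_eq, and_imp]

/-- a ground model statement -/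
theorem meets_fground {h : Prop} {p : PosSet m} : p ∈ meets (fground h : Set (PosSet m)) ↔ h :=
  ⟨fun hp => by
    obtain ⟨_, _, _, hs, _⟩ := hp p le_rfl
    exact hs, fun hp => meets_of_mem (mem_fground.2 hp)⟩

end

section

variable {P : Type} [Preorder P]

theorem meets_fground' {h : Prop} {p : P} : p ∈ meets (fground h : Set P) ↔ h :=
  ⟨fun hp => by
    obtain ⟨_, _, _, hs, _⟩ := hp p le_rfl
    exact hs, fun hp => meets_of_mem (mem_fground.2 hp)⟩

/-- The name of a function of the ground model. -/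
def gfun {X Y : Type*} (f : X → Y) : X → Y → Set P := fun x y => fground (f x = y)

theorem isFun_gfun {X Y : Type*} (f : X → Y) (p : P) : p ∈ IsFun (gfun f : X → Y → Set P) := by
  refine ⟨fun x => ?_, fun x y y' => ?_⟩
  · exact mem_fex_of_mem (f x) (down_meets _) (meets_fground'.2 rfl)
  · refine mem_fimp.2 fun q _ hq' => ⟨q, le_rfl, ?_⟩
    exact (meets_fground'.1 hq'.1).symm.trans (meets_fground'.1 hq'.2)

/-- A named subset of `X` of size `|X|` is not contained in a small set of the ground model. -/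
theorem exists_outside {X : Type} {A : X → Set P} {p : P} (h : p ∈ HasFullSize A) (D : Set X)
    (hD : #D < #X) : ∃ q ≤ p, ∃ x ∉ D, q ∈ meets (A x) := by
  by_contra hcon
  push Not at hcon
  have h1 := h #D hD
  apply h1 p le_rfl
  have e : (#D).out ≃ D := Cardinal.outMkEquiv
  refine mem_fex_of_mem (gfun fun x => (e x : X)) ?_ ?_
  · exact down_fand (down_IsFun _) (down_fall fun _ => down_fimp _ _)
  · refine ⟨isFun_gfun _ _, fun y => mem_fimp.2 fun q hq hqA => ?_⟩
    by_cases hy : y ∈ D
    · refine ⟨q, le_rfl, ?_⟩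
      refine mem_fex_of_mem (e.symm ⟨y, hy⟩) (down_meets _) ?_
      refine meets_fground'.2 ?_
      simp
    · exact absurd hqA (hcon q hq y hy)

end

section

variable {Om : Type} [MeasurableSpace Om] {m : Measure Om} [IsFiniteMeasure m]

theorem fullSize_nat {B : ℕ → Set (PosSet m)} {r : PosSet m} (h : r ∈ HasFullSize B) :
    m (r.carrier \ {w | ∀ k, ∃ n, k ≤ n ∧ w ∈ val (B n)}) = 0 := by
  have h0 : {w | ∀ k, ∃ n, k ≤ n ∧ w ∈ val (B n)} =
      ⋂ k : ℕ, ⋃ n : ℕ, ⋃ _ : k ≤ n, val (B n) := by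
    ext w
    simp
  rw [h0, diff_iInter, measure_iUnion_null_iff]
  intro k
  by_contra hne
  have hm : MeasurableSet (⋃ n : ℕ, ⋃ _ : k ≤ n, val (B n)) :=
    MeasurableSet.iUnion fun n => MeasurableSet.iUnion fun _ => measurableSet_val _
  have hne' : m (r.carrier ∩ (⋃ n : ℕ, ⋃ _ : k ≤ n, val (B n))ᶜ) ≠ 0 := hne
  have hdown : cut r _ hm.compl hne' ∈ HasFullSize B := by
    refine down_fall (fun _ => down_fall fun _ => down_fnot _) _ h _ (cut_le _ _ _ _)
  obtain ⟨q, hq, n, hn, hqn⟩ := exists_outside hdown {n | n < k} (by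
    rw [Cardinal.mk_nat]
    exact (Set.finite_lt_nat k).lt_aleph0)
  have h1 := ((hasVal_meets (B n)).2 q).1 hqn
  have h2 := null_of_le hq (cut_null r _ hm.compl hne')
  apply q.pos
  refine measure_mono_null (t := (q.carrier \ val (B n)) ∪
    (q.carrier \ (⋃ n : ℕ, ⋃ _ : k ≤ n, val (B n))ᶜ)) ?_ (measure_union_null h1 h2)
  intro x hx
  by_cases h3 : x ∈ val (B n)
  · refine Or.inr ⟨hx, fun h4 => h4 ?_⟩
    simp only [mem_iUnion]
    exact ⟨n, not_lt.1 hn, h3⟩
  · exact Or.inl ⟨hx, h3⟩

end

end Pool.Agent.W5h77.Rnd
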