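import Mathlib

/-!
# The product measure on `2^{I × ℕ}`
-/

namespace Pool.Agent.W5h77.Rnd

open Cardinal MeasureTheory Set Filter
open scoped ENNReal

/-- The fair coin: both points of `Bool` have measure `1/2`. -/
noncomputable def coin : Measure Bool :=
  (2⁻¹ : ℝ≥0∞) • (Measure.dirac false + Measure.dirac true)

theorem coin_singleton (b : Bool) : coin {b} = 2⁻¹ := by
  cases b <;> simp [coin]

instance : IsProbabilityMeasure coin := by
  constructor
  simp only [coin, Measure.smul_apply, Measure.add_apply, measure_univ, smul_eq_mul]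
  rw [one_add_one_eq_two]
  exact ENNReal.inv_mul_cancel (by simp) (by simp)

/-- The product measure on `2^{I × ℕ}` (on the product σ-algebra). -/
noncomputable def coinMeasure (I : Type) : Measure (I × ℕ → Bool) :=
  Measure.infinitePi fun _ => coin

instance (I : Type) : IsProbabilityMeasure (coinMeasure I) := by
  unfold coinMeasure
  infer_instance

/-- The product measure on `2^ℕ`. -/
noncomputable def rho : Measure (ℕ → Bool) := Measure.infinitePi fun _ => coin

instance : IsProbabilityMeasure rho := by
  unfold rho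
  infer_instance

/-! ### Countable supports -/

/-- membership in `V` only depends on the coordinates in `S` -/
def DepOn {J : Type} (S : Set J) (V : Set (J → Bool)) : Prop :=
  ∀ w w' : J → Bool, (∀ j ∈ S, w j = w' j) → (w ∈ V ↔ w' ∈ V)

theorem DepOn.mono {J : Type} {S T : Set J} {V : Set (J → Bool)} (h : DepOn S V) (hST : S ⊆ T) :
    DepOn T V := fun w w' hw => h w w' fun j hj => hw j (hST hj)

/-- the sets with countable support -/
def ctblSupp (J : Type) : MeasurableSpace (J → Bool) where
  MeasurableSet' V := ∃ S : Set J, S.Countable ∧ DepOn S V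
  measurableSet_empty := ⟨∅, countable_empty, fun _ _ _ => Iff.rfl⟩
  measurableSet_compl V := by
    rintro ⟨S, hS, h⟩
    exact ⟨S, hS, fun w w' hw => not_congr (h w w' hw)⟩
  measurableSet_iUnion V := by
    intro h
    choose S hS h using h
    refine ⟨⋃ i, S i, countable_iUnion hS, fun w w' hw => ?_⟩
    simp only [mem_iUnion]
    exact exists_congr fun i => h i w w' fun j hj => hw j (mem_iUnion.2 ⟨i, hj⟩)

theorem exists_supp {J : Type} {V : Set (J → Bool)} (hV : MeasurableSet V) :
    ∃ S : Set J, S.Countable ∧ DepOn S V := by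
  have h : (MeasurableSpace.pi : MeasurableSpace (J → Bool)) ≤ ctblSupp J := by
    refine iSup_le fun j => ?_
    rw [← measurable_iff_comap_le]
    intro s _
    refine ⟨{j}, countable_singleton j, fun w w' hw => ?_⟩
    simp only [mem_preimage]
    rw [hw j rfl]
  exact h V hV

/-! ### Replacing one row -/

/-- replace row `i` of `w` by `y` -/
def putRow {I : Type} [DecidableEq I] (i : I) (z : (I × ℕ → Bool) × (ℕ → Bool)) : I × ℕ → Bool :=
  fun j => if j.1 = i then z.2 j.2 else z.1 j

theorem measurable_putRow {I : Type} [DecidableEq I] (i : I) : Measurable (putRow i) := by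
  refine measurable_pi_lambda _ fun j => ?_
  unfold putRow
  by_cases h : j.1 = i
  · simp only [h, if_true]
    exact (measurable_pi_apply j.2).comp measurable_snd
  · simp only [h, if_false]
    exact (measurable_pi_apply j).comp measurable_fst

theorem map_putRow {I : Type} [DecidableEq I] (i : I) :
    ((coinMeasure I).prod rho).map (putRow i) = coinMeasure I := by
  refine Measure.eq_infinitePi _ fun s t ht => ?_
  have hm : MeasurableSet (Set.pi (s : Set (I × ℕ)) t) :=
    MeasurableSet.pi s.countable_toSet fun j _ => ht j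
  rw [Measure.map_apply (measurable_putRow i) hm]
  let s1 : Finset (I × ℕ) := s.filter fun j => ¬ j.1 = i
  let s2 : Finset (I × ℕ) := s.filter fun j => j.1 = i
  let s3 : Finset ℕ := s2.image Prod.snd
  have h1 : putRow i ⁻¹' (Set.pi (s : Set (I × ℕ)) t) =
      (Set.pi (s1 : Set (I × ℕ)) t) ×ˢ (Set.pi (s3 : Set ℕ) fun n => t (i, n)) := by
    ext z
    simp only [mem_preimage, Set.mem_pi, mem_prod, Finset.mem_coe, s1, s2, s3, Finset.mem_image,
      Finset.mem_filter]
    constructor
    · intro h
      refine ⟨fun j hj => ?_, ?_⟩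
      · have := h j hj.1
        simpa only [putRow, hj.2, if_false] using this
      · rintro n ⟨j, ⟨hj, hji⟩, rfl⟩
        have := h j hj
        simp only [putRow, hji, if_true] at this
        rw [← hji]
        exact this
    · rintro ⟨h1, h2⟩ j hj
      by_cases hji : j.1 = i
      · have := h2 j.2 ⟨j, ⟨hj, hji⟩, rfl⟩
        simp only [putRow, hji, if_true]
        rw [← hji] at this
        exact this
      · have := h1 j ⟨hj, hji⟩
        simpa only [putRow, hji, if_false] using this
  rw [h1, Measure.prod_prod]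
  unfold coinMeasure rho
  rw [Measure.infinitePi_pi _ fun j _ => ht j, Measure.infinitePi_pi _ fun n _ => ht (i, n)]
  rw [← Finset.prod_filter_not_mul_prod_filter s (fun j => j.1 = i)]
  congr 1
  have hinj : Set.InjOn Prod.snd (s2 : Set (I × ℕ)) := by
    intro a ha b hb hab
    simp only [s2, Finset.coe_filter, mem_setOf_eq] at ha hb
    exact Prod.ext (ha.2.trans hb.2.symm) hab
  rw [Finset.prod_image hinj]
  refine Finset.prod_congr rfl fun j hj => ?_
  have hji : j.1 = i := (Finset.mem_filter.1 hj).2
  rw [← hji]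

/-- an infinite set of coordinates on which the value is prescribed -/
theorem rho_const {B : Set ℕ} (hB : B.Infinite) (b : Bool) : rho {y | ∀ n ∈ B, y n = b} = 0 := by
  have h1 : ∀ k : ℕ, rho {y | ∀ n ∈ B, y n = b} ≤ (2⁻¹ : ℝ≥0∞) ^ k := by
    intro k
    obtain ⟨s, hs1, hs2⟩ := hB.exists_subset_card_eq k
    have h2 : {y : ℕ → Bool | ∀ n ∈ B, y n = b} ⊆ Set.pi (s : Set ℕ) fun _ => {b} :=
      fun y hy n hn => hy n (hs1 hn)
    refine (measure_mono h2).trans ?_
    unfold rho
    rw [Measure.infinitePi_pi _ fun n _ => measurableSet_singleton b]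
    simp only [coin_singleton, Finset.prod_const, hs2]
    exact le_rfl
  have h2 : Tendsto (fun k : ℕ => (2⁻¹ : ℝ≥0∞) ^ k) atTop (nhds 0) :=
    ENNReal.tendsto_pow_atTop_nhds_zero_of_lt_one (by simp)
  exact le_antisymm (ge_of_tendsto' h2 h1) bot_le

/-- The generic row `i` is not constant on an infinite set which does not depend on row `i`. -/
theorem null_const {I : Type} (i : I) (V : ℕ → Set (I × ℕ → Bool))
    (hV : ∀ n, MeasurableSet (V n)) (S : Set (I × ℕ)) (hS : ∀ n, DepOn S (V n))
    (hi : ∀ n, (i, n) ∉ S) (b : Bool) :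
    coinMeasure I {w | (∀ k, ∃ n, k ≤ n ∧ w ∈ V n) ∧ ∀ n, w ∈ V n → w (i, n) = b} = 0 := by
  classical
  set E : Set (I × ℕ → Bool) :=
    {w | (∀ k, ∃ n, k ≤ n ∧ w ∈ V n) ∧ ∀ n, w ∈ V n → w (i, n) = b} with hE
  have hEm : MeasurableSet E := by
    have h1 : E = (⋂ k : ℕ, ⋃ n : ℕ, ⋃ _ : k ≤ n, V n) ∩
        (⋂ n : ℕ, ((V n)ᶜ ∪ (fun w : I × ℕ → Bool => w (i, n)) ⁻¹' {b})) := by
      ext w
      simp only [hE, mem_setOf_eq, mem_inter_iff, mem_iInter, mem_iUnion, exists_prop, mem_union,
        mem_compl_iff, mem_preimage, mem_singleton_iff, imp_iff_not_or]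
    rw [h1]
    refine MeasurableSet.inter ?_ ?_
    · exact MeasurableSet.iInter fun k => MeasurableSet.iUnion fun n =>
        MeasurableSet.iUnion fun _ => hV n
    · exact MeasurableSet.iInter fun n => (hV n).compl.union
        (measurable_pi_apply (i, n) (measurableSet_singleton b))
  rw [← map_putRow i, Measure.map_apply (measurable_putRow i) hEm]
  rw [Measure.measure_prod_null (measurable_putRow i hEm)]
  refine Eventually.of_forall fun w => ?_
  by_cases hw : ∀ k, ∃ n, k ≤ n ∧ w ∈ V n
  · have hB : {n | w ∈ V n}.Infinite := by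
      rw [Set.infinite_iff_exists_gt]
      intro k
      obtain ⟨n, hn, hwn⟩ := hw (k + 1)
      exact ⟨n, hwn, by omega⟩
    refine measure_mono_null ?_ (rho_const hB b)
    intro y hy n hn
    have h1 := hy.2 n ((hS n _ _ fun j hj => ?_).2 hn)
    · simpa [putRow] using h1
    · have h3 : j.1 ≠ i := by
        rintro rfl
        exact hi j.2 hj
      simp [putRow, h3]
  · refine measure_mono_null (t := ∅) ?_ measure_empty
    intro y hy
    apply hw
    intro k
    obtain ⟨n, hn, hwn⟩ := hy.1 k
    refine ⟨n, hn, (hS n _ _ fun j hj => ?_).1 hwn⟩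
    have h3 : j.1 ≠ i := by
      rintro rfl
      exact hi j.2 hj
    simp [putRow, h3]

end Pool.Agent.W5h77.Rnd
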