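import Mathlib
import Pool.Agent.W5h77.Rnd.Basic
import Pool.Agent.W5h77.Rnd.Coin

/-!
# Adding random reals: the strong polarized relation fails, the dominating number is preserved
-/

namespace Pool.Agent.W5h77.Rnd

universe v

open Cardinal MeasureTheory Set Filter Pool.Agent.Helper669.Forcing Pool.Agent.Helper669.K
open Pool.Agent.Helper669.Dom
open scoped ENNReal

/-- Adding `I` many random reals: the measurable subsets of nonzero measure of `2^{I × ℕ}`. -/
abbrev Random (I : Type) : Type := PosSet (coinMeasure I)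

/-! ### The polarized relation -/

/-- The event that the bit `n` of the random real `i` is `b`. -/
def bit {I : Type} (i : I) (n : ℕ) (b : Bool) : Set (I × ℕ → Bool) := {w | w (i, n) = b}

theorem measurableSet_bit {I : Type} (i : I) (n : ℕ) (b : Bool) : MeasurableSet (bit i n b) := by
  have h1 : bit i n b = (fun w : I × ℕ → Bool => w (i, n)) ⁻¹' {b} := rfl
  rw [h1]
  exact measurable_pi_apply (i, n) (measurableSet_singleton b)

theorem bit_pos {I : Type} (i : I) (n : ℕ) (b : Bool) : coinMeasure I (bit i n b) ≠ 0 := by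
  have h1 : bit i n b = (fun w : I × ℕ → Bool => w (i, n)) ⁻¹' {b} := rfl
  rw [h1, ← Measure.map_apply (measurable_pi_apply (i, n)) (measurableSet_singleton b)]
  unfold coinMeasure
  rw [Measure.infinitePi_map_eval, coin_singleton]
  simp

/-- The condition that the bit `n` of the random real `i` is `1`. -/
noncomputable def bitCond {I : Type} (i : I) (n : ℕ) : Random I :=
  ⟨bit i n true, measurableSet_bit i n true, bit_pos i n true⟩

theorem hasVal_bit {I : Type} (i : I) (n : ℕ) :
    HasVal (meets ({bitCond i n} : Set (Random I))) (bit i n true) := by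
  refine ⟨measurableSet_bit i n true, fun p => ?_⟩
  constructor
  · intro hp
    have h1 := ((hasVal_meets ({bitCond i n} : Set (Random I))).2 p).1 hp
    have h2 : coinMeasure I (val ({bitCond i n} : Set (Random I)) \ bit i n true) = 0 := by
      by_contra hne
      have hne' : coinMeasure I (val ({bitCond i n} : Set (Random I)) ∩ (bit i n true)ᶜ) ≠ 0 := hne
      let q : Random I := ⟨val ({bitCond i n} : Set (Random I)) ∩ (bit i n true)ᶜ,
        (measurableSet_val _).inter (measurableSet_bit i n true).compl, hne'⟩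
      have hq : q ∈ meets ({bitCond i n} : Set (Random I)) := by
        refine ((hasVal_meets _).2 q).2 ?_
        refine measure_mono_null (t := ∅) ?_ measure_empty
        rintro x ⟨hx, hx'⟩
        exact hx' hx.1
      obtain ⟨r, hr, s, hs, hrs⟩ := hq q le_rfl
      rw [mem_singleton_iff] at hs
      subst hs
      apply r.pos
      refine measure_mono_null (t := (r.carrier \ bit i n true) ∪ (r.carrier \ q.carrier)) ?_
        (measure_union_null hrs hr)
      intro x hx
      by_cases h3 : x ∈ bit i n true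
      · exact Or.inr ⟨hx, fun h4 => h4.2 h3⟩
      · exact Or.inl ⟨hx, h3⟩
    refine measure_mono_null (t := (p.carrier \ val ({bitCond i n} : Set (Random I))) ∪
      (val ({bitCond i n} : Set (Random I)) \ bit i n true)) ?_ (measure_union_null h1 h2)
    intro x hx
    by_cases h3 : x ∈ val ({bitCond i n} : Set (Random I))
    · exact Or.inr ⟨h3, hx.2⟩
    · exact Or.inl ⟨hx.1, h3⟩
  · intro hp
    exact meets_of_le (mem_singleton _) hp

theorem mem_for' {P : Type} [Preorder P] {φ ψ : Set P} {p : P} (h : p ∈ for' φ ψ) :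
    (∃ q ≤ p, q ∈ φ) ∨ (∃ q ≤ p, q ∈ ψ) := by
  by_contra hcon
  push Not at hcon
  exact h p le_rfl ⟨hcon.1, hcon.2⟩

/-- The core: no two conditions force a homogeneous rectangle of the colour `b`. -/
theorem no_rectangle {I K : Type} (e : K → I) (he : Function.Injective e) (hK : ℵ₀ < #K)
    (b : Bool) (C : K → ℕ → Set (Random I)) (hC : ∀ x n, HasVal (C x n) (bit (e x) n b))
    (A : K → Set (Random I)) (B : ℕ → Set (Random I)) (r : Random I)
    (hA : r ∈ HasFullSize A) (hB : r ∈ HasFullSize B)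
    (h : r ∈ fall fun x => fall fun n =>
      fimp (fand (meets (A x)) (meets (B n))) (C x n)) : False := by
  choose S hS1 hS2 using fun n : ℕ => exists_supp (measurableSet_val (B n))
  let S' : Set (I × ℕ) := ⋃ n, S n
  have hS' : S'.Countable := countable_iUnion hS1
  let D : Set K := e ⁻¹' (Prod.fst '' S')
  have hD : D.Countable := (hS'.image _).preimage_of_injOn he.injOn
  obtain ⟨q, hq, x, hx, hqx⟩ := exists_outside hA D (hD.le_aleph0.trans_lt hK)
  have hBq := null_of_le hq (fullSize_nat hB)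
  have h1 : ∀ n, coinMeasure I (q.carrier \ {w | w ∈ val (B n) → w ∈ bit (e x) n b}) = 0 := by
    intro n
    have h2 : HasVal (fimp (meets (B n)) (C x n))
        {w | w ∈ val (B n) → w ∈ bit (e x) n b} := HasVal.fimp (hasVal_meets _) (hC x n)
    refine (h2.2 q).1 ?_
    refine mem_fimp.2 fun t ht htB => ?_
    have h3 := h x n
    exact mem_fimp.1 h3 t (ht.trans hq) ⟨down_meets _ _ hqx _ ht, htB⟩
  have h2 : coinMeasure I (q.carrier \ ⋂ n, {w | w ∈ val (B n) → w ∈ bit (e x) n b}) = 0 := by
    rw [sdiff_iInter, measure_iUnion_null_iff]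
    exact h1
  have h3 := null_const (e x) (fun n => val (B n)) (fun n => measurableSet_val _) S'
    (fun n => (hS2 n).mono (subset_iUnion S n)) (fun n hn => hx ⟨_, hn, rfl⟩) b
  apply q.pos
  refine measure_mono_null ?_ (measure_union_null hBq (measure_union_null h2 h3))
  intro w hw
  by_cases h4 : ∀ k, ∃ n, k ≤ n ∧ w ∈ val (B n)
  · by_cases h5 : ∀ n, w ∈ val (B n) → w ∈ bit (e x) n b
    · exact Or.inr (Or.inr ⟨h4, h5⟩)
    · refine Or.inr (Or.inl ⟨hw, fun h6 => h5 ?_⟩)
      intro n
      exact mem_iInter.1 h6 n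
  · exact Or.inl ⟨hw, h4⟩

/-- After adding `I` many random reals the strong polarized relation between `K` and `ℕ` fails,
for every uncountable `K` of size at most `|I|`. -/
theorem not_polarized {I K : Type} (hK : ℵ₀ < #K) (hKI : #K ≤ #I) (p : Random I) :
    p ∈ fnot (Polarized (Random I) K ℕ) := by
  intro q _ hq
  obtain ⟨e⟩ := hKI
  have h1 := hq fun x n => {bitCond (e x) n}
  obtain ⟨r, _, A, hr⟩ := mem_fex.1 h1 q le_rfl
  obtain ⟨s, _, B, hs⟩ := mem_fex.1 hr r le_rfl
  obtain ⟨hA, hB, hs⟩ := hs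
  have hdA : Down (HasFullSize A) := down_fall fun _ => down_fall fun _ => down_fnot _
  have hdB : Down (HasFullSize B) := down_fall fun _ => down_fall fun _ => down_fnot _
  rcases mem_for' hs with ⟨t, ht, h2⟩ | ⟨t, ht, h2⟩
  · exact no_rectangle e e.injective hK true _ (fun x n => hasVal_bit (e x) n) A B t
      (hdA _ hA _ ht) (hdB _ hB _ ht) h2
  · refine no_rectangle e e.injective hK false _ (fun x n => ?_) A B t
      (hdA _ hA _ ht) (hdB _ hB _ ht) h2
    refine (hasVal_bit (e x) n).fnot.congr ?_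
    ext w
    simp [bit]

/-! ### The dominating number -/

section

variable {P : Type} [Preorder P]

/-- The named function `x` is eventually bounded by the named function `y`. -/
def EvLe (x y : ℕ → ℕ → Set P) : Set P :=
  fex fun k : ℕ => fall fun n : ℕ => fall fun _ : k ≤ n => fall fun a => fall fun b =>
    fimp (fand (meets (x n a)) (meets (y n b))) (fground (a ≤ b))

/-- In the extension there is a dominating family indexed by `Y`. -/
def DominatingLe (P : Type) [Preorder P] (Y : Type) : Set P :=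
  fex fun E : Y → ℕ → ℕ → Set P =>
    fand (fall fun y => IsFun (E y))
      (fall fun x : ℕ → ℕ → Set P => fimp (IsFun x) (fex fun y => EvLe x (E y)))

/-- In the extension the dominating number is `κ`. -/
def DominatingIs (P : Type) [Preorder P] (κ : Cardinal.{0}) : Set P :=
  fand (DominatingLe P κ.out)
    (fall fun ν : Cardinal.{0} => fall fun _ : ν < κ => fnot (DominatingLe P ν.out))

theorem down_EvLe (x y : ℕ → ℕ → Set P) : Down (EvLe x y) := down_fex _

end

section

variable {Om : Type} [MeasurableSpace Om] {m : Measure Om} [IsFiniteMeasure m]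

theorem hasVal_EvLe (x y : ℕ → ℕ → Set (PosSet m)) :
    HasVal (EvLe x y) {w | ∃ k, ∀ n, k ≤ n → ∀ a b, w ∈ val (x n a) → w ∈ val (y n b) →
      a ≤ b} := by
  refine (HasVal.fex fun k => HasVal.fall fun n => HasVal.fall fun _ => HasVal.fall fun a =>
    HasVal.fall fun b => HasVal.fimp (HasVal.fand (hasVal_meets (x n a)) (hasVal_meets (y n b)))
      (HasVal.fground (a ≤ b))).congr ?_
  ext w
  simp only [mem_inter_iff, mem_iInter, mem_iUnion, mem_setOf_eq, and_imp]

/-- sets of points where the named functions of the ground model take their values -/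
theorem ae_val_gfun (g : ℕ → ℕ) (p : PosSet m) :
    m (p.carrier \ {w | ∀ n a, w ∈ val (gfun g n a : Set (PosSet m)) ↔ g n = a}) = 0 := by
  have h1 : {w | ∀ n a, w ∈ val (gfun g n a : Set (PosSet m)) ↔ g n = a} =
      ⋂ n, ⋂ a, {w | w ∈ val (gfun g n a : Set (PosSet m)) ↔ g n = a} := by
    ext w
    simp
  rw [h1, sdiff_iInter, measure_iUnion_null_iff]
  intro n
  rw [sdiff_iInter, measure_iUnion_null_iff]
  intro a
  by_cases h : g n = a
  · have h2 : p ∈ meets (gfun g n a : Set (PosSet m)) := meets_fground.2 h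
    have h3 := ((hasVal_meets _).2 p).1 h2
    refine measure_mono_null ?_ h3
    rintro w ⟨hw1, hw2⟩
    refine ⟨hw1, fun h4 => hw2 ?_⟩
    exact ⟨fun _ => h, fun _ => h4⟩
  · by_contra hne
    have hne' : m (p.carrier ∩ val (gfun g n a : Set (PosSet m))) ≠ 0 := by
      intro h4
      apply hne
      refine measure_mono_null ?_ h4
      rintro w ⟨hw1, hw2⟩
      refine ⟨hw1, ?_⟩
      by_contra h5
      exact hw2 ⟨fun h6 => absurd h6 h5, fun h6 => absurd h6 h⟩
    have h2 := ((hasVal_meets (gfun g n a : Set (PosSet m))).2 _).2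
      (cut_null p _ (measurableSet_val _) hne')
    exact h (meets_fground.1 h2)

/-- The forcing is `ω^ω`-bounding, in a strong form: one function of the ground model eventually
bounds the named function. -/
theorem bounding (x : ℕ → ℕ → Set (PosSet m)) (r : PosSet m) (h : r ∈ IsFun x) :
    ∃ g : ℕ → ℕ, r ∈ EvLe x (gfun g) := by
  have h0 := ((hasVal_IsFun x).2 r).1 h
  let T : ℕ → ℕ → Set Om := fun n k => r.carrier ∩ ⋃ a : ℕ, ⋃ _ : k < a, val (x n a)
  have hTm : ∀ n k, MeasurableSet (T n k) := fun n k => r.meas.inter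
    (MeasurableSet.iUnion fun a => MeasurableSet.iUnion fun _ => measurableSet_val _)
  have hTanti : ∀ n, Antitone (T n) := by
    intro n k l hkl w hw
    refine ⟨hw.1, ?_⟩
    have h2 := hw.2
    simp only [mem_iUnion] at h2 ⊢
    obtain ⟨a, ha, hwa⟩ := h2
    exact ⟨a, lt_of_le_of_lt hkl ha, hwa⟩
  have hTlim : ∀ n, Tendsto (fun k => m (T n k)) atTop (nhds 0) := by
    intro n
    have h1 := tendsto_measure_iInter_atTop (μ := m) (s := T n)
      (fun k => (hTm n k).nullMeasurableSet) (hTanti n) ⟨0, measure_ne_top _ _⟩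
    have h2 : m (⋂ k, T n k) = 0 := by
      refine measure_mono_null ?_ h0
      intro w hw
      rw [mem_iInter] at hw
      refine ⟨(hw 0).1, fun hcon => ?_⟩
      obtain ⟨a, ha⟩ := hcon.1 n
      have h3 := (hw a).2
      simp only [mem_iUnion] at h3
      obtain ⟨b, hb, hwb⟩ := h3
      exact absurd (hcon.2 n a b ha hwb) (ne_of_lt hb)
    rwa [h2] at h1
  obtain ⟨ε, hε0, hεsum⟩ := ENNReal.exists_pos_sum_of_countable' (ε := 1) one_ne_zero ℕ
  have h1 : ∀ n, ∃ k, m (T n k) < ε n := by
    intro n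
    exact ((hTlim n).eventually_lt_const (hε0 n)).exists
  choose g hg using h1
  refine ⟨g, ((hasVal_EvLe x (gfun g)).2 r).2 ?_⟩
  have h2 : ∑' n, m (T n (g n)) ≠ ∞ :=
    ((ENNReal.tsum_le_tsum fun n => (hg n).le).trans_lt (hεsum.trans ENNReal.one_lt_top)).ne
  have h3 := measure_limsup_atTop_eq_zero h2
  refine measure_mono_null ?_ (measure_union_null h3 (ae_val_gfun (m := m) g r))
  rintro w ⟨hw1, hw2⟩
  by_contra hcon
  rw [mem_union, not_or] at hcon
  apply hw2
  have h4 : ∀ n a, w ∈ val (gfun g n a : Set (PosSet m)) ↔ g n = a := by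
    by_contra h5
    exact hcon.2 ⟨hw1, h5⟩
  have h5 := hcon.1
  rw [mem_limsup_iff_frequently_mem, not_frequently, eventually_atTop] at h5
  obtain ⟨k, hk⟩ := h5
  refine ⟨k, fun n hn a b ha hb => ?_⟩
  rw [h4] at hb
  rw [← hb]
  by_contra hlt
  rw [not_le] at hlt
  refine hk n hn ⟨hw1, ?_⟩
  simp only [mem_iUnion]
  exact ⟨a, hlt, ha⟩

theorem dominatingLe_dNum (p : PosSet m) : p ∈ DominatingLe (PosSet m) dNum.out := by
  obtain ⟨F, hF, hcard⟩ := exists_dominating
  have e : dNum.out ≃ F := by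
    rw [← hcard]
    exact Cardinal.outMkEquiv
  refine mem_fex_of_mem (fun y => gfun (e y : ℕ → ℕ)) ?_ ?_
  · exact down_fand (down_fall fun _ => down_IsFun _) (down_fall fun _ => down_fimp _ _)
  · refine ⟨fun y => isFun_gfun _ _, fun x => mem_fimp.2 fun q _ hqx => ?_⟩
    obtain ⟨g, hg⟩ := bounding x q hqx
    obtain ⟨f, hf, hgf⟩ := hF g
    refine ⟨q, le_rfl, mem_fex_of_mem (e.symm ⟨f, hf⟩) (down_EvLe _ _) ?_⟩
    have h1 : (e (e.symm ⟨f, hf⟩) : ℕ → ℕ) = f := by simp
    change q ∈ EvLe x (gfun (e (e.symm ⟨f, hf⟩) : ℕ → ℕ))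
    rw [h1]
    refine ((hasVal_EvLe x (gfun f)).2 q).2 ?_
    have h2 := ((hasVal_EvLe x (gfun g)).2 q).1 hg
    refine measure_mono_null ?_ (measure_union_null h2 (measure_union_null
      (ae_val_gfun (m := m) g q) (ae_val_gfun (m := m) f q)))
    rintro w ⟨hw1, hw2⟩
    by_contra hcon
    rw [mem_union, mem_union, not_or, not_or] at hcon
    obtain ⟨h3, h4, h5⟩ := hcon
    have h4' : ∀ n a, w ∈ val (gfun g n a : Set (PosSet m)) ↔ g n = a := by
      by_contra h6
      exact h4 ⟨hw1, h6⟩
    have h5' : ∀ n a, w ∈ val (gfun f n a : Set (PosSet m)) ↔ f n = a := by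
      by_contra h6
      exact h5 ⟨hw1, h6⟩
    have h3' : w ∈ {w | ∃ k, ∀ n, k ≤ n → ∀ a b, w ∈ val (x n a) →
        w ∈ val (gfun g n b : Set (PosSet m)) → a ≤ b} := by
      by_contra h6
      exact h3 ⟨hw1, h6⟩
    obtain ⟨k, hk⟩ := h3'
    rw [eventually_atTop] at hgf
    obtain ⟨l, hl⟩ := hgf
    apply hw2
    refine ⟨max k l, fun n hn a b ha hb => ?_⟩
    rw [h5'] at hb
    rw [← hb]
    exact (hk n ((le_max_left _ _).trans hn) a (g n) ha ((h4' _ _).2 rfl)).trans
      (hl n ((le_max_right _ _).trans hn))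

theorem not_dominatingLe {ν : Cardinal.{0}} (hν : ν < dNum) (p : PosSet m) :
    p ∉ DominatingLe (PosSet m) ν.out := by
  intro hp
  obtain ⟨r, _, E, hE1, hE2⟩ := mem_fex.1 hp p le_rfl
  choose g hg using fun y => bounding (E y) r (hE1 y)
  obtain ⟨h, hh⟩ := not_dominating (by rwa [Cardinal.mk_out]) g
  obtain ⟨s, hs, hs'⟩ := mem_fimp.1 (hE2 (gfun h)) r le_rfl (isFun_gfun h r)
  obtain ⟨t, ht, y, hty⟩ := mem_fex.1 hs' s le_rfl
  have h1 := ((hasVal_EvLe (gfun h) (E y)).2 t).1 hty
  have h2 := null_of_le (ht.trans hs) (((hasVal_EvLe (E y) (gfun (g y))).2 r).1 (hg y))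
  have h3 := null_of_le (ht.trans hs) (((hasVal_IsFun (E y)).2 r).1 (hE1 y))
  have h4 := ae_val_gfun (m := m) h t
  have h5 := ae_val_gfun (m := m) (g y) t
  apply t.pos
  refine measure_mono_null ?_ (measure_union_null h1 (measure_union_null h2
    (measure_union_null h3 (measure_union_null h4 h5))))
  intro w hw
  by_contra hcon
  simp only [mem_union, not_or, Set.mem_sdiff, hw, true_and, not_not] at hcon
  obtain ⟨⟨k, hk⟩, ⟨l, hl⟩, ⟨h6, _⟩, h7, h8⟩ := hcon
  obtain ⟨n, hn1, hn2⟩ := ((hh y).and_eventually (eventually_ge_atTop (max k l))).exists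
  obtain ⟨a, ha⟩ := h6 n
  have h9 := hk n ((le_max_left _ _).trans hn2) (h n) a ((h7 _ _).2 rfl) ha
  have h10 := hl n ((le_max_right _ _).trans hn2) a (g y n) ha ((h8 _ _).2 rfl)
  omega

theorem dominatingIs (p : PosSet m) : p ∈ DominatingIs (PosSet m) dNum :=
  ⟨dominatingLe_dNum p, fun _ hν q _ hq => not_dominatingLe hν q hq⟩

/-! ### Cardinals are preserved -/

theorem cardinalsPreserved (p : PosSet m) : p ∈ CardinalsPreserved.{0, v} (PosSet m) := by
  intro μ ν hμν hν q _ hq
  obtain ⟨r, _, R, hR1, hR2⟩ := mem_fex.1 hq q le_rfl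
  let V : μ.out → ν.out → Set Om := fun x y => r.carrier ∩ val (R x y)
  have hVm : ∀ x y, MeasurableSet (V x y) := fun x y => r.meas.inter (measurableSet_val _)
  have hdis : ∀ x, Pairwise (Function.onFun (AEDisjoint m) (V x)) := by
    intro x y y' hyy'
    by_contra hne
    have hne' : m (r.carrier ∩ (val (R x y) ∩ val (R x y'))) ≠ 0 := by
      intro h4
      apply hne
      refine measure_mono_null ?_ h4
      rintro w ⟨hw1, hw2⟩
      exact ⟨hw1.1, hw1.2, hw2.2⟩
    have hm := (measurableSet_val (R x y)).inter (measurableSet_val (R x y'))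
    have h5 := cut_null r _ hm hne'
    have h6 := cut_le r _ hm hne'
    obtain ⟨s, _, hs⟩ := mem_fimp.1 (hR1.2 x y y') _ h6
      ⟨((hasVal_meets _).2 _).2 (measure_mono_null (sdiff_subset_sdiff_right inter_subset_left) h5),
        ((hasVal_meets _).2 _).2
          (measure_mono_null (sdiff_subset_sdiff_right inter_subset_right) h5)⟩
    exact hyy' hs
  have hctb : ∀ x, {y | 0 < m (V x y)}.Countable := fun x =>
    Measure.countable_meas_pos_of_disjoint_iUnion₀
      (fun y => (hVm x y).nullMeasurableSet) (hdis x)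
  have hex : ∃ y, ∀ x, m (V x y) = 0 := by
    by_contra hcon
    push Not at hcon
    have h1 : (Set.univ : Set ν.out) ⊆ ⋃ x : μ.out, {y | 0 < m (V x y)} := by
      intro y _
      obtain ⟨x, hx⟩ := hcon y
      exact mem_iUnion.2 ⟨x, pos_iff_ne_zero.2 hx⟩
    have h2 : ν ≤ #(⋃ x : μ.out, {y | 0 < m (V x y)} : Set ν.out) := by
      calc ν = #(Set.univ : Set ν.out) := by rw [mk_univ, mk_out]
        _ ≤ _ := mk_le_mk_of_subset h1
    have h3 : #(⋃ x : μ.out, {y | 0 < m (V x y)} : Set ν.out) ≤ μ * ℵ₀ := by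
      refine (mk_iUnion_le _).trans ?_
      rw [mk_out]
      refine mul_le_mul_right ?_ _
      exact ciSup_le' fun x => (hctb x).le_aleph0
    have h4 : μ * ℵ₀ < ν := Cardinal.mul_lt_of_lt hν.le hμν hν
    exact absurd (h2.trans h3) (not_le.2 h4)
  obtain ⟨y, hy⟩ := hex
  obtain ⟨s, hs, x, hsx⟩ := mem_fex.1 (hR2 y) r le_rfl
  apply s.pos
  refine measure_mono_null ?_ (measure_union_null (hy x) (measure_union_null hs
    (((hasVal_meets _).2 s).1 hsx)))
  intro w hw
  by_contra hcon
  simp only [mem_union, not_or, Set.mem_sdiff, hw, true_and, not_not, V, mem_inter_iff] at hcon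
  exact hcon.1 ⟨hcon.2.1, hcon.2.2⟩

end

end Pool.Agent.W5h77.Rnd
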